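import Pool.Agent.Q65.ESN.VgNig

/-! Project ESN (helper161), job DUALG: the linear forms on `V`
(after `Pool/Agent/Q224/ESG/DUALG.lean`). -/

set_option autoImplicit false
set_option linter.unusedSectionVars false

namespace Pool.Agent.Q65.ESN

open Polynomial NumberField IsDedekindDomain Finset Pool.Agent.Q161.ESN
open Pool.Agent.Q51.EL (Abv Par)

theorem z2 (x : ZMod 2) : x = 0 ∨ x = 1 := by revert x; decide

theorem z2add (x : ZMod 2) : x + x = 0 := by revert x; decide

section C

variable {C F K : Type} [Field F] [NumberField F] [Field K] [NumberField K] [Algebra F K]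
  {L : C → Type} [∀ c, Field (L c)] [∀ c, NumberField (L c)] [∀ c, Algebra F (L c)]
  {V : Type} [AddCommGroup V] [DistribMulAction (K ≃ₐ[F] K) V]
  {cd : V →+ ((c : C) → (L c →ₐ[F] K) → ZMod 2)}

theorem vb_two (h : VB cd) (v : V) : v + v = 0 := by
  apply h.inj
  rw [map_add, map_zero]
  ext c ι
  exact z2add _

/-- a linear form is given by coefficients -/
theorem coeff [Fintype C] (h : VB cd) (χ : V →+ ZMod 2) :
    ∃ a : (c : C) → (L c →ₐ[F] K) → ZMod 2, ∀ s, χ s = ∑ c, ∑ ι, a c ι * cd s c ι := by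
  classical
  let M : Module (ZMod 2) V := AddCommGroup.zmodModule (n := 2) (fun v => by
    rw [two_nsmul]; exact vb_two h v)
  let cl : V →ₗ[ZMod 2] ((c : C) → (L c →ₐ[F] K) → ZMod 2) := AddMonoidHom.toZModLinearMap 2 cd
  have hcl : LinearMap.ker cl = ⊥ := LinearMap.ker_eq_bot.2 h.inj
  obtain ⟨g, hg⟩ := cl.exists_leftInverse_of_injective hcl
  let φl : V →ₗ[ZMod 2] ZMod 2 := AddMonoidHom.toZModLinearMap 2 χ
  refine ⟨fun c ι => φl (g (Pi.single c (Pi.single ι 1))), fun s => ?_⟩
  have h1 : χ s = φl (g (cl s)) := by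
    have h2 := LinearMap.congr_fun hg s
    change g (cl s) = s at h2
    rw [h2]
    rfl
  have h3 : cl s = ∑ c, ∑ ι, cd s c ι • (Pi.single c (Pi.single ι (1 : ZMod 2)) :
      (c : C) → (L c →ₐ[F] K) → ZMod 2) := by
    ext c ι
    rw [Finset.sum_apply, Finset.sum_apply, Finset.sum_eq_single c]
    · rw [Finset.sum_apply, Finset.sum_apply, Finset.sum_eq_single ι]
      · rw [Pi.smul_apply, Pi.smul_apply, Pi.single_eq_same, Pi.single_eq_same, smul_eq_mul,
          mul_one]
        rfl
      · intro ι' _ hne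
        rw [Pi.smul_apply, Pi.smul_apply, Pi.single_eq_same, Pi.single_eq_of_ne (Ne.symm hne),
          smul_zero]
      · intro h'
        exact absurd (mem_univ _) h'
    · intro c' _ hne
      rw [Finset.sum_apply, Finset.sum_apply]
      refine sum_eq_zero fun ι' _ => ?_
      rw [Pi.smul_apply, Pi.smul_apply, Pi.single_eq_of_ne (Ne.symm hne), Pi.zero_apply, smul_zero]
    · intro h'
      exact absurd (mem_univ _) h'
  rw [h1, h3, map_sum, map_sum]
  refine sum_congr rfl fun c _ => ?_
  rw [map_sum, map_sum]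
  refine sum_congr rfl fun ι _ => ?_
  rw [map_smul, map_smul, smul_eq_mul, mul_comm]

/-- uniqueness of balanced coefficients -/
theorem uniq [Fintype C] {th : (c : C) → 𝓞 (L c)} (hD : ∀ c, Dat F K (th c)) (h : VB cd)
    {a : (c : C) → (L c →ₐ[F] K) → ZMod 2} (h0 : ∀ c : C, ∑ ι, a c ι = 0)
    (h1 : ∀ s, ∑ c, ∑ ι, a c ι * cd s c ι = 0) : ∀ c ι, a c ι = 0 := by
  classical
  intro c ι
  have hcon : ∀ ι' : L c →ₐ[F] K, a c ι' = a c ι := by
    intro ι'
    by_cases hne : ι' = ι
    · rw [hne]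
    obtain ⟨s, hs⟩ := (h.im (Pi.single c (Pi.single ι 1 + Pi.single ι' 1))).2 (by
      intro c'
      by_cases hc : c' = c
      · subst hc
        rw [Pi.single_eq_same]
        simp only [Pi.add_apply, Finset.sum_add_distrib]
        rw [Finset.sum_eq_single_of_mem ι (mem_univ _)
            (fun b _ hb => Pi.single_eq_of_ne hb _),
            Finset.sum_eq_single_of_mem ι' (mem_univ _)
            (fun b _ hb => Pi.single_eq_of_ne hb _), Pi.single_eq_same, Pi.single_eq_same]
        exact z2add 1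
      · rw [Pi.single_eq_of_ne hc]
        simp)
    have h2 := h1 s
    rw [hs, Finset.sum_eq_single c, Pi.single_eq_same] at h2
    · simp only [Pi.add_apply, mul_add, Finset.sum_add_distrib, Pi.single_apply, mul_ite, mul_one,
        mul_zero, Finset.sum_ite_eq', mem_univ, if_true] at h2
      have h3 : a c ι' = a c ι + (a c ι + a c ι') := by
        rw [← add_assoc, z2add, zero_add]
      rw [h3, h2, add_zero]
    · intro c' _ hc
      rw [Pi.single_eq_of_ne hc]
      simp
    · intro h'
      exact absurd (mem_univ _) h'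
  have h2 := h0 c
  rw [Finset.sum_congr rfl fun b _ => hcon b, Finset.sum_const, card_univ,
    nsmul_odd (hD c).odd] at h2
  exact h2

end C

/-- **JOB DUALG** -/
theorem dualg : S_DUALG := by
  classical
  intro C F K _ _ _ _ _ _ L _ _ _ th hD V _ _ cd h φ χ hχ
  obtain ⟨a0, ha0⟩ := coeff h χ
  have hV : ∀ (s : V) (c : C), ∑ ι, cd s c ι = 0 :=
    fun s => (h.im (cd s)).1 ⟨s, rfl⟩
  -- balanced coefficients
  let p : C → ZMod 2 := fun c => ∑ ι, a0 c ι
  let a : (c : C) → (L c →ₐ[F] K) → ZMod 2 := fun c ι => a0 c ι + p c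
  have ha : ∀ s, χ s = ∑ c, ∑ ι, a c ι * cd s c ι := by
    intro s
    rw [ha0 s]
    refine sum_congr rfl fun c _ => ?_
    have h1 : ∑ ι, a c ι * cd s c ι =
        ∑ ι, a0 c ι * cd s c ι + ∑ ι : L c →ₐ[F] K, p c * cd s c ι := by
      rw [← sum_add_distrib]
      exact sum_congr rfl fun ι _ => add_mul _ _ _
    rw [h1, ← mul_sum, hV s c, mul_zero, add_zero]
  have hbal : ∀ c : C, ∑ ι, a c ι = 0 := by
    intro c
    have h1 : ∑ ι, a c ι = p c + ∑ ι : L c →ₐ[F] K, p c := by
      change ∑ ι : L c →ₐ[F] K, (a0 c ι + p c) = _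
      rw [sum_add_distrib]
    rw [h1, sum_const, card_univ, nsmul_odd (hD c).odd, z2add]
  -- invariance
  have hinv : ∀ c ι, a c (cp φ ι) = a c ι := by
    have h1 := uniq hD h (a := fun c ι => a c (cp φ ι) + a c ι) (by
      intro c
      rw [sum_add_distrib, hbal, add_zero, ← hbal c]
      exact Fintype.sum_equiv (cpe φ) _ _ fun ι => rfl) (by
      intro s
      have h2 : ∑ c, ∑ ι, (a c (cp φ ι) + a c ι) * cd s c ι =
          ∑ c, ∑ ι, a c (cp φ ι) * cd s c ι + ∑ c, ∑ ι, a c ι * cd s c ι := by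
        rw [← sum_add_distrib]
        refine sum_congr rfl fun c _ => ?_
        rw [← sum_add_distrib]
        exact sum_congr rfl fun ι _ => add_mul _ _ _
      have h3 : ∑ c, ∑ ι, a c (cp φ ι) * cd s c ι = ∑ c, ∑ ι, a c ι * cd (φ • s) c ι := by
        refine sum_congr rfl fun c _ => ?_
        rw [← Equiv.sum_comp (cpe φ) (fun ι => a c ι * cd (φ • s) c ι)]
        refine sum_congr rfl fun ι _ => ?_
        rw [cpe_apply, h.eqv]
      rw [h2, h3, ← ha, ← ha, hχ, z2add])
    intro c ι
    have h2 := h1 c ι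
    have h3 : a c (cp φ ι) = (a c (cp φ ι) + a c ι) + a c ι := by
      rw [add_assoc, z2add, add_zero]
    rw [h3]
    change a c (cp φ ι) + a c ι = 0 at h2
    rw [h2, zero_add]
  refine ⟨fun c => univ.filter (fun ι => a c ι = 1), fun s => ?_, fun c ι => ?_⟩
  · rw [ha s]
    refine sum_congr rfl fun c _ => ?_
    rw [sum_filter]
    refine sum_congr rfl fun ι _ => ?_
    rcases z2 (a c ι) with h1 | h1
    · rw [h1, zero_mul, if_neg (by decide)]
    · rw [h1, one_mul, if_pos rfl]
  · rw [mem_filter, mem_filter, hinv]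
    simp only [mem_univ, true_and]

end Pool.Agent.Q65.ESN
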