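import Pool.Agent.Q65.ESN.Dualg

/-! Project ESN (helper161), job LOCG: the local conditions (after `Pool/Agent/Q224/ESG/LOCG.lean`). -/

set_option autoImplicit false
set_option linter.unusedSectionVars false

namespace Pool.Agent.Q65.ESN

open Polynomial NumberField IsDedekindDomain Finset Pool.Agent.Q161.ESN
open Pool.Agent.Q51.EL (Abv Par)

theorem exp_neg_lt : WithZero.exp (-1 : ℤ) < (1 : WithZero (Multiplicative ℤ)) := by
  rw [← WithZero.exp_zero, WithZero.exp_lt_exp]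
  omega

theorem one_ne_exp : (1 : WithZero (Multiplicative ℤ)) ≠ WithZero.exp (-1 : ℤ) :=
  exp_neg_lt.ne'

theorem mem_of_val_lt {K : Type} [Field K] [NumberField K] {w : HeightOneSpectrum (𝓞 K)}
    {x : 𝓞 K} : w.valuation K (x : K) < 1 ↔ x ∈ w.asIdeal :=
  w.valuation_lt_one_iff_mem x

section C

variable {C F K : Type} [Field F] [NumberField F] [Field K] [NumberField K] [Algebra F K]
  {L : C → Type} [∀ c, Field (L c)] [∀ c, NumberField (L c)] [∀ c, Algebra F (L c)]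
  {V : Type} [AddCommGroup V] [DistribMulAction (K ≃ₐ[F] K) V]
  {cd : V →+ ((c : C) → (L c →ₐ[F] K) → ZMod 2)} {th : (c : C) → 𝓞 (L c)} {B : ℕ} {D : 𝓞 F}
  {α : (c : C) → 𝓞 (L c)} {z : V → 𝓞 K}

theorem tpg_uniq (hV : VB cd) {w : HeightOneSpectrum (𝓞 K)} {s t : V} (hs : TpG cd α w s)
    (ht : TpG cd α w t) : s = t := by
  apply hV.inj
  ext c ι
  rcases z2 (cd s c ι) with h1 | h1 <;> rcases z2 (cd t c ι) with h2 | h2
  · rw [h1, h2]
  · exact absurd (((hs c ι).1 h1).symm.trans ((ht c ι).2 h2)) one_ne_exp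
  · exact absurd (((ht c ι).1 h2).symm.trans ((hs c ι).2 h1)) one_ne_exp
  · rw [h1, h2]

theorem mem_iff (h : RG0 th cd B D α z) {l : ℕ} (hl : l.Prime) (hB : ¬ l ∣ B)
    {w : HeightOneSpectrum (𝓞 K)} (hw : Abv w l) (t : V) :
    z t ∈ w.asIdeal ↔ iO F K D ∈ w.asIdeal ∧ TpG cd α w t := by
  rw [← mem_of_val_lt]
  by_cases h1 : iO F K D ∈ w.asIdeal ∧ TpG cd α w t
  · rw [(h.typ l hl hB w hw t).1 h1]
    exact ⟨fun _ => h1, fun _ => exp_neg_lt⟩
  · rw [(h.typ l hl hB w hw t).2 h1]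
    exact ⟨fun h' => absurd h' (lt_irrefl _), fun h' => absurd h' h1⟩

theorem par_iff {w : HeightOneSpectrum (𝓞 K)} {x : K} {i : ZMod 2}
    (h1 : i = 0 → w.valuation K x = 1) (h2 : i = 1 → w.valuation K x = WithZero.exp (-1 : ℤ))
    {j : ZMod 2} (h3 : j = 0 → Par w x 0) (h4 : j = 1 → Par w x 1) : j = i := by
  rcases z2 i with rfl | rfl <;> rcases z2 j with rfl | rfl
  · rfl
  · exfalso
    obtain ⟨k, hk⟩ := h4 rfl
    rw [h1 rfl, ← WithZero.exp_zero, WithZero.exp_inj] at hk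
    omega
  · exfalso
    obtain ⟨k, hk⟩ := h3 rfl
    rw [h2 rfl, WithZero.exp_inj] at hk
    omega
  · rfl

/-- the local condition, in terms of the type -/
theorem gd_odd (hR : RG0 th cd B D α z) {l : ℕ} (hl : l.Prime) (hB : ¬ l ∣ B)
    {w : HeightOneSpectrum (𝓞 K)} (hw : Abv w l) {φ : K ≃ₐ[F] K} (hφ : Fb w l φ)
    (hD : iO F K D ∈ w.asIdeal) {t : V} (ht : TpG cd α w t) (c : C) :
    (∀ ι, cd t c (cp φ ι) = cd t c ι) ∧
      ∀ A : Finset (L c →ₐ[F] K), (∀ ι, ι ∈ A ↔ cp φ ι ∈ A) →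
      QR w l (∏ ι ∈ A, ι (α c : L c) *
        (if cd t c ι = 1 then algebraMap F K (D : F) else 1) * uu (th c) (cd t c) ι) := by
  obtain ⟨e, -, h3, h24⟩ := (hR.gd c).odd l hl hB w hw hD
  obtain ⟨h2, h4⟩ := h24 φ hφ
  have he : e = cd t c := by
    ext ι
    exact par_iff (ht c ι).1 (ht c ι).2 (h3 ι).1 (h3 ι).2
  rw [← he]
  exact ⟨h2, h4⟩

end C

/-- **JOB LOCG** -/
theorem locg : S_DUALG → S_ADD → S_LJG → S_LOCG := by
  classical
  intro hDUAL hADD hLJ C F K _ _ _ _ _ _ _ L _ _ _ th hD V _ _ _ cd hV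
  obtain ⟨B2, hB2, hLJ⟩ := hLJ C F K L th hD V cd hV
  have hDUAL := hDUAL C F K L th hD V cd hV
  refine ⟨B2 * 2, by positivity, ?_⟩
  intro B hB hB0 μ a l hl hlB w φ hw hFb
  have d2 : B2 ∣ B := (Dvd.intro _ rfl).trans hB
  have d3 : 2 ∣ B := (Dvd.intro_left _ rfl).trans hB
  have hl2 : l ≠ 2 := by
    rintro rfl
    exact hlB d3
  have one : ∀ z : V → 𝓞 K, (∃ (D : 𝓞 F) (α : (c : C) → 𝓞 (L c)), RG th cd B μ a D α z) →
      ∀ t, z t ∈ w.asIdeal → φ • t = t ∧ ∀ s, s ≠ t → z s ∉ w.asIdeal := by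
    rintro z ⟨D, α, hz⟩ t ht
    obtain ⟨h1, h2⟩ := (mem_iff hz.rel hl hlB hw t).1 ht
    refine ⟨?_, fun s hs hm => hs ?_⟩
    · apply hV.inj
      ext c ι
      obtain ⟨h3, -⟩ := gd_odd hz.rel hl hlB hw hFb h1 h2 c
      obtain ⟨ι', rfl⟩ := (cpe φ).surjective ι
      rw [cpe_apply, hV.eqv, h3]
    · exact tpg_uniq hV ((mem_iff hz.rel hl hlB hw s).1 hm).2 h2
  refine ⟨one, ?_⟩
  intro z hz z' hz' t ht ht' χ hχ
  obtain ⟨A, h1, h2⟩ := hDUAL φ χ hχ
  obtain ⟨hFt, hzs⟩ := one z hz t ht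
  obtain ⟨-, hzs'⟩ := one z' hz' t ht'
  have hmax : w.asIdeal.IsMaximal := w.isMaximal
  have hprime : w.asIdeal.IsPrime := w.isPrime
  let fld : Field (𝓞 K ⧸ w.asIdeal) := Ideal.Quotient.field w.asIdeal
  let q : 𝓞 K →+* (𝓞 K ⧸ w.asIdeal) := Ideal.Quotient.mk w.asIdeal
  have hq : ∀ x : 𝓞 K, q x = 0 ↔ x ∈ w.asIdeal := fun x => Ideal.Quotient.eq_zero_iff_mem
  let ψ : C → (V →+ ZMod 2) := fun c =>
    { toFun := fun s => ∑ ι ∈ A c, cd s c ι
      map_zero' := by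
        rw [map_zero]
        simp
      map_add' := fun s s' => by
        rw [map_add, ← sum_add_distrib]
        rfl }
  have hψ : ∀ c s, ψ c s = ∑ ι ∈ A c, cd s c ι := fun c s => rfl
  obtain ⟨D, α, hz⟩ := hz
  obtain ⟨D', α', hz'⟩ := hz'
  have hfr : ∀ (y : V → 𝓞 K), Eqv F y → ∀ s, q (y (φ • s)) = q (y s) ^ l := by
    intro y hy s
    have h3 := hFb (y s) (y (φ • s)) (hy φ s)
    rw [← hq, map_sub, map_pow, sub_eq_zero] at h3
    exact h3
  have key := hADD (𝓞 K ⧸ w.asIdeal) V C l hl hl2 (DistribSMul.toAddMonoidHom V φ)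
    (fun s => q (z s * z' s)) t (MulAction.bijective φ) hFt
    (fun s => by
      change q (z (φ • s) * z' (φ • s)) = q (z s * z' s) ^ l
      rw [map_mul, map_mul, mul_pow, hfr z hz.rel.eqv, hfr z' hz'.rel.eqv])
    (fun s hs => by
      change q (z s * z' s) ≠ 0
      rw [Ne, hq]
      intro h3
      rcases hprime.mem_or_mem h3 with h4 | h4
      · exact hzs s hs h4
      · exact hzs' s hs h4)
    univ ψ (fun c _ s => by
      change ∑ ι ∈ A c, cd (φ • s) c ι = ∑ ι ∈ A c, cd s c ι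
      refine (sum_bij' (fun ι _ => cp φ ι) (fun ι _ => (cpe φ).symm ι) ?_ ?_ ?_ ?_ ?_).symm
      · intro ι hι
        exact (h2 c ι).1 hι
      · intro ι hι
        rw [h2, ← cpe_apply, Equiv.apply_symm_apply]
        exact hι
      · intro ι _
        exact (cpe φ).symm_apply_apply ι
      · intro ι _
        exact (cpe φ).apply_symm_apply ι
      · intro ι _
        rw [hV.eqv])
    (fun c _ => by
      have h3 := hLJ B d2 hB0 μ a D D' α α' z z' hz hz' l hl hlB w φ hw hFb t ht ht'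
        c (A c) (h2 c)
      rw [← hq, map_sub, map_one, map_pow, sub_eq_zero, map_prod] at h3
      exact h3)
  have hφψ : ∑ c, ψ c = χ := by
    ext s
    rw [AddMonoidHom.finsetSum_apply, h1]
    exact Finset.sum_congr rfl fun c _ => hψ c s
  rw [hφψ] at key
  rw [← hq, map_sub, map_one, map_pow, sub_eq_zero, map_prod]
  exact key

end Pool.Agent.Q65.ESN
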