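import Pool.Agent.Q161.ESN.Stm3

/-! # Project ESN (helper161), jobs VG and NIG: the module `V` over a number field `F`
(after `Pool/Agent/Q241/ESG/Vg.lean` and `Pool/Agent/Q285/ESG/Base.lean`) -/

set_option autoImplicit false
set_option linter.unusedSectionVars false

namespace Pool.Agent.Q65.ESN

open Polynomial NumberField IsDedekindDomain Finset
open Pool.Agent.Q161.ESN

section

variable {F K L : Type} [Field F] [NumberField F] [Field K] [NumberField K] [Algebra F K] [Field L]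
  [NumberField L] [Algebra F L]

lemma cp_apply (g : K ≃ₐ[F] K) (ι : L →ₐ[F] K) (x : L) : cp g ι x = g (ι x) := rfl

lemma cp_one (ι : L →ₐ[F] K) : cp (1 : K ≃ₐ[F] K) ι = ι := AlgHom.ext fun _ => rfl

lemma cp_mul (g h : K ≃ₐ[F] K) (ι : L →ₐ[F] K) : cp (g * h) ι = cp g (cp h ι) :=
  AlgHom.ext fun _ => rfl

lemma cp_inv (g : K ≃ₐ[F] K) (ι : L →ₐ[F] K) : cp g⁻¹ (cp g ι) = ι := by
  rw [← cp_mul, inv_mul_cancel, cp_one]

lemma cp_inv' (g : K ≃ₐ[F] K) (ι : L →ₐ[F] K) : cp g (cp g⁻¹ ι) = ι := by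
  rw [← cp_mul, mul_inv_cancel, cp_one]

/-- the permutation of the embeddings -/
def cpe (g : K ≃ₐ[F] K) : (L →ₐ[F] K) ≃ (L →ₐ[F] K) where
  toFun := cp g
  invFun := cp g⁻¹
  left_inv := cp_inv g
  right_inv := cp_inv' g

lemma cpe_apply (g : K ≃ₐ[F] K) (ι : L →ₐ[F] K) : cpe g ι = cp g ι := rfl

/-- `Gal(K/F)` is transitive on the embeddings -/
lemma exists_cp [IsGalois ℚ K] (ι ι' : L →ₐ[F] K) : ∃ g : K ≃ₐ[F] K, cp g ι = ι' := by
  have : IsGalois F K := IsGalois.tower_top_of_isGalois ℚ F K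
  have : Normal F K := IsGalois.to_normal
  let : Algebra L K := ι.toRingHom.toAlgebra
  have : IsScalarTower F L K := IsScalarTower.of_algebraMap_eq fun x => (ι.commutes x).symm
  let ψ : K →ₐ[F] K := AlgHom.liftNormal ι' K
  have h1 : Function.Bijective ψ := Algebra.IsAlgebraic.algHom_bijective ψ
  refine ⟨AlgEquiv.ofBijective ψ h1, AlgHom.ext fun y => ?_⟩
  exact AlgHom.liftNormal_commutes ι' K y

end

section

variable {C : Type} {L : C → Type} (F K : Type) [Field F] [NumberField F] [Field K] [NumberField K]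
  [Algebra F K] [∀ c, Field (L c)] [∀ c, NumberField (L c)] [∀ c, Algebra F (L c)]

variable (L) in
/-- the group `V` -/
noncomputable def VG : AddSubgroup ((c : C) → (L c →ₐ[F] K) → ZMod 2) where
  carrier := {e | ∀ c : C, ∑ ι, e c ι = 0}
  add_mem' := by
    intro a b ha hb c
    simp only [Pi.add_apply]
    rw [Finset.sum_add_distrib, ha c, hb c, add_zero]
  zero_mem' := fun c => by simp
  neg_mem' := by
    intro a ha c
    simp only [Pi.neg_apply]
    rw [Finset.sum_neg_distrib, ha c, neg_zero]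

variable {F K}

lemma act_mem (g : K ≃ₐ[F] K) {e : (c : C) → (L c →ₐ[F] K) → ZMod 2} (he : e ∈ VG L F K) :
    (fun c ι => e c (cp g⁻¹ ι)) ∈ VG L F K := by
  intro c
  rw [← he c]
  exact Fintype.sum_equiv (cpe g⁻¹) _ _ fun ι => rfl

/-- the action -/
@[reducible] noncomputable def act : DistribMulAction (K ≃ₐ[F] K) (VG L F K) where
  smul g e := ⟨fun c ι => e.1 c (cp g⁻¹ ι), act_mem g e.2⟩
  one_smul e := by
    apply Subtype.ext
    funext c ι
    show e.1 c (cp 1⁻¹ ι) = e.1 c ι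
    rw [inv_one, cp_one]
  mul_smul g h e := by
    apply Subtype.ext
    funext c ι
    show e.1 c (cp (g * h)⁻¹ ι) = e.1 c (cp h⁻¹ (cp g⁻¹ ι))
    rw [mul_inv_rev, cp_mul]
  smul_zero g := by
    apply Subtype.ext
    funext c ι
    rfl
  smul_add g a b := by
    apply Subtype.ext
    funext c ι
    rfl

end

/-- **JOB VG** -/
theorem vg : S_VG := by
  classical
  intro C F K _ _ _ _ _ _ L _ _ _
  let := act (C := C) (L := L) (F := F) (K := K)
  refine ⟨VG L F K, inferInstance, Fintype.ofFinite _, inferInstance, (VG L F K).subtype, ?_, ?_, ?_⟩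
  · exact (VG L F K).subtype_injective
  · intro e
    constructor
    · rintro ⟨t, rfl⟩
      exact t.2
    · intro h
      exact ⟨⟨e, h⟩, rfl⟩
  · intro g t c ι
    show t.1 c (cp g⁻¹ (cp g ι)) = t.1 c ι
    rw [cp_inv]

theorem nsmul_odd {n : ℕ} (hn : Odd n) (x : ZMod 2) : n • x = x := by
  obtain ⟨m, rfl⟩ := hn
  rw [add_smul, mul_comm, mul_smul, one_smul]
  have : ∀ y : ZMod 2, 2 • y = 0 := by decide
  rw [smul_comm, this, zero_add]

/-- **JOB NIG** -/
theorem nig : S_NIG := by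
  intro C F K _ _ _ _ _ _ _ L _ _ _ th hD V _ _ cd hV
  classical
  refine ⟨fun v => hV.inj ?_, fun v hv => hV.inj ?_⟩
  · rw [map_add, map_zero]
    funext c ι
    exact CharTwo.add_self_eq_zero _
  · rw [map_zero]
    funext c ι
    have hconst : ∀ ι' : L c →ₐ[F] K, cd v c ι' = cd v c ι := by
      intro ι'
      obtain ⟨g, rfl⟩ := exists_cp ι ι'
      have h1 := hV.eqv g v c ι
      rwa [hv g] at h1
    have h2 := (hV.im (cd v)).1 ⟨v, rfl⟩ c
    rw [sum_congr rfl fun ι' _ => hconst ι', sum_const, card_univ] at h2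
    have h3 := (hD c).odd
    have h4 := nsmul_odd h3 (cd v c ι)
    rw [Pi.zero_apply, Pi.zero_apply, ← h2, h4]

end Pool.Agent.Q65.ESN
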